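import Pool.Agent.Lib.MP_b9c6dd_an.Result

/-!
# MP_b9c6dd_an: stable rank one when the coefficient algebra has sequence comparison

The hypotheses are those of the frozen statement S05925, together with one of two conditions on
the coefficient algebra (the second implies the first):

* `SeqComp A` (sequence comparison at the unit);
* `FinRC A` (finite radius of comparison).

The proof goes through the domination property of the action, see the hand-in StableRankOneIff.
-/

namespace Pool.Agent.Results.MP_b9c6dd_an.StableRankOneFinRC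

open Pool.Agent.MPb9c6dd

theorem result :
  ∀ (A : Type) [CStarAlgebra A] (α : A ≃⋆ₐ[ℂ] A),
    Dense {x : A | IsUnit x} →
    (∃ d : ℕ, ∀ (F : Finset A) (ε : ℝ), 0 < ε → ∀ q : ℕ,
      ∃ f : Fin (d + 1) → Fin (q + 1) → A,
        (∀ l j, (∃ g : A, f l j = star g * g) ∧ ‖f l j‖ ≤ 1) ∧
        (∀ l j k, j ≠ k → ‖f l j * f l k‖ < ε) ∧
        (∀ l j, ‖α (f l j) - f l (j + 1)‖ < ε) ∧
        ‖(∑ l, ∑ j, f l j) - 1‖ < ε ∧
        (∀ l j, ∀ a ∈ F, ‖f l j * a - a * f l j‖ < ε) ∧
        (∀ l m j k, ‖f l j * f m k - f m k * f l j‖ < ε)) →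
    (SeqComp A ∨ FinRC A) →
    ∀ (B : Type) [CStarAlgebra B] (ι : A →⋆ₐ[ℂ] B) (u : B),
      Function.Injective ι →
      u ∈ unitary B →
      (∀ a : A, u * ι a * star u = ι (α a)) →
      (StarAlgebra.adjoin ℂ (Set.range (ι : A → B) ∪ {u})).topologicalClosure = ⊤ →
      (∀ z : ℂ, ‖z‖ = 1 →
        ∃ γ : B →⋆ₐ[ℂ] B, (∀ a : A, γ (ι a) = ι a) ∧ γ u = z • u) →
      IsSimpleRing B →
      Dense {x : B | IsUnit x} := by
  intro A _ α hd hR hC B _ ι u hι hu hcov hgen hg hs
  exact stable_rank_one A α hd hR (Or.inr hC) B ι u hι hu hcov hgen hg hs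

end Pool.Agent.Results.MP_b9c6dd_an.StableRankOneFinRC
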