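import Pool.Agent.Lib.MP_b9c6dd_an.Result
import Pool.Agent.Lib.MP_b9c6dd_an.CvFinal

/-!
# MP_b9c6dd_an: a characterization of stable rank one of the crossed product

Under the hypotheses of the frozen statement S05925 (A unital with dense invertibles, `α` of
finite Rokhlin dimension with commuting towers, `B` a simple model of the crossed product), the
invertibles of `B` are dense if and only if `α` has the domination property `DP`: for every
nonzero positive `y : A` there are a number `L` and `a j, b j : A` with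
`∑_{j < L} a j * α^j(y) * b j = 1` (one term for every translate).

Files in `Pool/Agent/Lib/MP_b9c6dd_an`. First implication: `Expect`, `Faithful`: conditional
expectation, its faithfulness and `α`-simplicity of `A`; `StabFin`, `Window`, `Dedekind`: `B` is
Dedekind finite; `Ultra`, `UltraApi`, `Towers`: exact Rokhlin towers in an ultrapower; `Move`,
`MoveBoth`, `LemT1-3`: reduction to `f = ∑_{1 ≤ k ≤ K} b_k u^k` with the same positive annihilator in
`A` on both sides; `Split`: splitting of positive elements; `GTower`, `CutAlg`, `Main7`: an explicit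
invertible `G` such that `G f` is nilpotent in the ultrapower. Converse: `CvHer`, `CvGL`, `CvVas`: the
class of the canonical unitary is represented in `1 + yBy`; `CvToep*`, `CvLift`, `CvAsm`: a Toeplitz
index argument with elementary matrices.
-/

namespace Pool.Agent.Results.MP_b9c6dd_an.StableRankOneIff

open Pool.Agent.MPb9c6dd

theorem result :
  ∀ (A : Type) [CStarAlgebra A] (α : A ≃⋆ₐ[ℂ] A),
    Dense {x : A | IsUnit x} →
    (∃ d : ℕ, ∀ (F : Finset A) (ε : ℝ), 0 < ε → ∀ q : ℕ,
      ∃ f : Fin (d + 1) → Fin (q + 1) → A,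
        (∀ l j, (∃ g : A, f l j = star g * g) ∧ ‖f l j‖ ≤ 1) ∧
        (∀ l j k, j ≠ k → ‖f l j * f l k‖ < ε) ∧
        (∀ l j, ‖α (f l j) - f l (j + 1)‖ < ε) ∧
        ‖(∑ l, ∑ j, f l j) - 1‖ < ε ∧
        (∀ l j, ∀ a ∈ F, ‖f l j * a - a * f l j‖ < ε) ∧
        (∀ l m j k, ‖f l j * f m k - f m k * f l j‖ < ε)) →
    ∀ (B : Type) [CStarAlgebra B] (ι : A →⋆ₐ[ℂ] B) (u : B),
      Function.Injective ι →
      u ∈ unitary B →
      (∀ a : A, u * ι a * star u = ι (α a)) →
      (StarAlgebra.adjoin ℂ (Set.range (ι : A → B) ∪ {u})).topologicalClosure = ⊤ →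
      (∀ z : ℂ, ‖z‖ = 1 →
        ∃ γ : B →⋆ₐ[ℂ] B, (∀ a : A, γ (ι a) = ι a) ∧ γ u = z • u) →
      IsSimpleRing B →
      (Dense {x : B | IsUnit x} ↔ DP α) := by
  intro A _ α hd hR B _ ι u hι hu hcov hgen hg hs
  have h : CP α ι (⟨u, hu⟩ : unitary B) := ⟨hι, hcov, hgen, hg⟩
  exact ⟨fun hB => h.DP_of_dense hd hB,
    fun hDP => stable_rank_one A α hd hR (Or.inl hDP) B ι u hι hu hcov hgen hg hs⟩

end Pool.Agent.Results.MP_b9c6dd_an.StableRankOneIff
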